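import Pool.Agent.N84.MD.BC
import Pool.Agent.N625.PT.H
import Pool.Agent.N625.DY.L

/-!
# Prime pairs in progressions, uniformly in the modulus and without exceptions, for the differences near the first digits of
# almost every real number

The starting results on this question (and the classical ones) leave out an exceptional set of differences at every scale.
Here a sequence of random integers `x_k < b ^ k` is given on one probability space, one for every number `k` of digits: for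
instance the integers formed by the first `k` digits of a random real number `ξ`, in any base. Almost surely, for all large `k`
there are NO exceptions: with `D = c_k + κ x_k > 0`, the estimate of the problem holds for all the even differences `d`
between `D` and `D + (log X) ^ A₁`, for all `X` with `b ^ k (log X) ^ (C + 8) ≤ X ≤ b ^ k (log X) ^ W`, all `x ≤ X` and all
classes of all moduli `q ≤ (log X) ^ A₂`; and this for all `κ ≠ 0`, `A₁`, `A₂`, `C` and `W` at once. This applies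

* to almost every real number `ξ` in `[0, 1)` (with respect to the measure of Lebesgue), in all bases `b` at once;
* to almost every point with respect to any measure for which the first `k` digits have exchangeable blocks: Bernoulli and
  Markov measures, for example the Cantor measure, or measures which are dominated by such measures up to a power of `k`.

The proof combines the starting library on random integers with exchangeable blocks of digits (`Pool.Agent.N625.PT`,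
`Pool.Agent.N625.DY.cls_pairs`, `Pool.Agent.W93.PP`), used for all the powers `X` of two in the range at once, with the lemma of
Borel and Cantelli (`Pool.Agent.N84.MD.BC`).

Definition used (in `Pool.Agent.H560R3.GB`): `C₂`: the twin prime constant `∏_{p > 2} (1 - 1 / (p - 1) ^ 2)` (the infimum
of the partial products).
-/

set_option autoImplicit false

open Filter MeasureTheory Finset
open scoped ENNReal

namespace Pool.Agent.Results.MP_92ef0c_nt.AlmostEveryRealNumber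

open Pool.Agent.H560R3.GB

/-- The probability, for the distribution `μ` on the words of `k` digits (the integers `v < b ^ k`), that the word begins with
the `i` digits of `u < b ^ i`. -/
noncomputable def begins (b k : ℕ) (μ : ℕ → ℝ) (i u : ℕ) : ℝ := ∑ w ∈ range (b ^ (k - i)), μ (u * b ^ (k - i) + w)

/-- `p` is a probability on the words of `k` digits in base `b`, read as integers `v < b ^ k`. There is another probability
`μ` with `p ≤ k ^ T μ` such that after every beginning `u` two different blocks `a`, `a'` of `L` digits can be exchanged: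
`p (u a w) = r p (u a' w)` for all endings `w`, with a factor `r` between `η` and `1 / η` which does not depend on `w`; and
given the beginning `u`, each of the two blocks comes next with a probability of at least `η` in the distribution `μ`.
(For `T = 0` one has `μ = p`. For the uniform distribution on a set of words `r` is `1`.) -/
structure Exchangeable (b L : ℕ) (η : ℝ) (T k : ℕ) (p : ℕ → ℝ) : Prop where
  nonneg : ∀ v, 0 ≤ p v
  sum : ∑ v ∈ range (b ^ k), p v = 1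
  dominated : ∃ μ : ℕ → ℝ, (∀ v, 0 ≤ μ v) ∧ ∑ v ∈ range (b ^ k), μ v = 1 ∧ (∀ v < b ^ k, p v ≤ (k : ℝ) ^ T * μ v) ∧
    ∀ i u : ℕ, i + L ≤ k → u < b ^ i → ∃ (a a' : ℕ) (r : ℝ), a < a' ∧ a' < b ^ L ∧ η ≤ r ∧ η * r ≤ 1 ∧
      (∀ w < b ^ (k - (i + L)), p ((b ^ L * u + a) * b ^ (k - (i + L)) + w) = r * p ((b ^ L * u + a') * b ^ (k - (i + L)) + w)) ∧
      η * begins b k μ i u ≤ begins b k μ (i + L) (b ^ L * u + a) ∧
      η * begins b k μ i u ≤ begins b k μ (i + L) (b ^ L * u + a')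

lemma begins_sum (b k : ℕ) (μ : ℕ → ℝ) (i u : ℕ) (hi : i < k) :
    ∑ a ∈ range b, begins b k μ (i + 1) (b * u + a) = begins b k μ i u := by
  unfold begins
  obtain ⟨n, hn⟩ : ∃ n, k - i = n + 1 := ⟨k - i - 1, by omega⟩
  have h1 : k - (i + 1) = n := by omega
  rw [h1, hn, pow_succ, mul_comm (b ^ n) b, Pool.Agent.N625.PT.sum_blocks b (b ^ n)]
  apply sum_congr rfl
  intro a _
  apply sum_congr rfl
  intro w _
  congr 1
  ring

lemma flex_of {b L T k : ℕ} {η : ℝ} {p : ℕ → ℝ} (hp : Exchangeable b L η T k p) : Pool.Agent.N625.PT.Flex b L η T k p := by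
  obtain ⟨h0, h1, μ, m0, m1, m2, m3⟩ := hp
  have hT : (0 : ℝ) ≤ (k : ℝ) ^ T := by positivity
  have hb0 : ∀ i u, 0 ≤ begins b k μ i u := fun i u => sum_nonneg fun w _ => m0 _
  refine ⟨h0, h1, fun i u => (k : ℝ) ^ T * begins b k μ i u, fun i u => mul_nonneg hT (hb0 i u), ?_, ?_, ?_, ?_⟩
  · intro v hv
    refine (m2 v hv).trans (le_of_eq ?_)
    unfold begins
    simp
  · intro i hi u _
    simp only
    rw [← mul_sum, begins_sum b k μ i u hi]
  · simp only
    have : begins b k μ 0 0 = 1 := by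
      unfold begins
      simpa using m1
    rw [this, mul_one]
  · intro i u hi hu
    obtain ⟨a, a', r, q1, q2, q3, q4, q5, q6, q7⟩ := m3 i u hi hu
    refine ⟨a, a', r, q1, q2, q3, q4, q5, ?_, ?_⟩
    · simp only
      calc η * ((k : ℝ) ^ T * begins b k μ i u) = (k : ℝ) ^ T * (η * begins b k μ i u) := by ring
        _ ≤ _ := mul_le_mul_of_nonneg_left q6 hT
    · simp only
      calc η * ((k : ℝ) ^ T * begins b k μ i u) = (k : ℝ) ^ T * (η * begins b k μ i u) := by ring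
        _ ≤ _ := mul_le_mul_of_nonneg_left q7 hT

/-- `π_d(x; a, q)`: the number of primes `p ≤ x` with `p + d ≤ x` prime and `p ≡ a (mod q)`. (For even
`d > 0` such a prime `p` is automatically odd.) -/
noncomputable def pairs (d : ℕ) (x : ℝ) (a q : ℕ) : ℕ :=
  ((range (⌊x⌋₊ + 1)).filter (fun p => p.Prime ∧ (p + d).Prime ∧ (p : ℝ) + d ≤ x ∧ p ≡ a [MOD q])).card

/-- The main term `M_d(x; q)` of the problem. -/
noncomputable def main (d : ℕ) (x : ℝ) (q : ℕ) : ℝ :=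
  2 / (((range q).filter (fun α => Nat.Coprime α q ∧ Nat.Coprime (α + d) q)).card : ℝ) *
    (∏ p ∈ d.primeFactors.filter (fun p => 2 < p), ((p : ℝ) - 1) / ((p : ℝ) - 2)) * C₂ *
    ∫ t in (2 : ℝ)..x, 1 / Real.log t ^ 2

/-- If `D > 0`: the estimate of the problem with the bound `X / (log X) ^ C`, for all `x ≤ X`, all moduli
`q ≤ (log X) ^ A₂`, all admissible classes `a`, and all even `d` with `D ≤ d ≤ D + (log X) ^ A₁`. -/
def Holds (A₁ A₂ C X : ℕ) (D : ℤ) : Prop :=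
  0 < D → ∀ d q a : ℕ, D ≤ d → (d : ℝ) ≤ D + Real.log X ^ A₁ → 0 < d → Even d → 1 ≤ q → (q : ℝ) ≤ Real.log X ^ A₂ →
    Nat.Coprime a q → Nat.Coprime (a + d) q → ∀ x : ℝ, 2 ≤ x → x ≤ X →
    |(pairs d x a q : ℝ) - main d x q| ≤ X / Real.log X ^ C

lemma holds_of (A B C X : ℕ) (D : ℤ) (hgood : 0 < D → Pool.Agent.W93.PP.GoodD A B C X D.toNat) :
    Holds A B C X D := by
  intro hD
  have hgood := hgood hD
  obtain ⟨D, rfl⟩ := Int.eq_ofNat_of_zero_le hD.le
  rw [Int.toNat_natCast] at hgood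
  intro d q a hd1 hd2 hd0 hdev hq1 hq2 ha had x hx2 hxX
  obtain ⟨δ, hδ⟩ := Nat.exists_eq_add_of_le (Int.ofNat_le.1 hd1)
  subst hδ
  have hδL : (δ : ℝ) ≤ Real.log X ^ A := by
    push_cast at hd2 ⊢
    linarith
  have h2 := hgood δ q a hδL hq1 hq2 ha had hdev.two_dvd hd0.ne' x hx2 hxX
  have e1 : main (D + δ) x q =
      sing (D + δ) / Pool.Agent.W93.PP.Cnt q (D + δ) * Pool.Agent.W93.PP.Li2 x := by
    unfold main sing Pool.Agent.W93.PP.Cnt Pool.Agent.W93.PP.Li2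
    ring
  rw [e1]
  exact h2

/-- the uniform distribution has exchangeable digits -/
theorem exch_unif (b : ℕ) (hb : 2 ≤ b) (k : ℕ) (p : ℕ → ℝ) (hp : ∀ v < b ^ k, p v = 1 / (b : ℝ) ^ k)
    (hp0 : ∀ v, 0 ≤ p v) : Exchangeable b 1 (1 / b) 0 k p := by
  have hb0 : (0 : ℝ) < b := by exact_mod_cast (by omega : 0 < b)
  have hbk : (0 : ℝ) < (b : ℝ) ^ k := by positivity
  have hsum : ∀ f : ℕ → ℝ, (∀ v < b ^ k, f v = 1 / (b : ℝ) ^ k) → ∑ v ∈ range (b ^ k), f v = 1 := by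
    intro f hf
    rw [sum_congr rfl fun v hv => hf v (mem_range.1 hv), sum_const, card_range, nsmul_eq_mul]
    push_cast
    field_simp
  refine ⟨hp0, hsum p hp, fun _ => 1 / (b : ℝ) ^ k, fun _ => by positivity, hsum _ fun _ _ => rfl, ?_, ?_⟩
  · intro v hv
    rw [hp v hv, pow_zero, one_mul]
  · intro i u hi hu
    obtain ⟨n, hn⟩ : ∃ n, k = i + 1 + n := ⟨k - (i + 1), by omega⟩
    have e1 : k - (i + 1) = n := by omega
    have e2 : k - i = n + 1 := by omega
    have hlt : ∀ a, a < b → ∀ w, w < b ^ n → (b ^ 1 * u + a) * b ^ n + w < b ^ k := by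
      intro a ha w hw
      have h1 : b ^ 1 * u + a + 1 ≤ b ^ (i + 1) := by
        rw [pow_one, pow_succ]
        nlinarith
      calc (b ^ 1 * u + a) * b ^ n + w < (b ^ 1 * u + a) * b ^ n + b ^ n := by omega
        _ = (b ^ 1 * u + a + 1) * b ^ n := by ring
        _ ≤ b ^ (i + 1) * b ^ n := Nat.mul_le_mul_right _ h1
        _ = b ^ k := by rw [hn, pow_add b (i + 1) n]
    have hbeg : ∀ j u', begins b k (fun _ => 1 / (b : ℝ) ^ k) j u' = (b : ℝ) ^ (k - j) * (1 / (b : ℝ) ^ k) := by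
      intro j u'
      unfold begins
      rw [sum_const, card_range, nsmul_eq_mul]
      push_cast
      rfl
    refine ⟨0, 1, 1, one_pos, by rw [pow_one]; omega, ?_, ?_, ?_, ?_, ?_⟩
    · rw [div_le_one hb0]
      exact_mod_cast (by omega : 1 ≤ b)
    · rw [mul_one, div_le_one hb0]
      exact_mod_cast (by omega : 1 ≤ b)
    · intro w hw
      rw [e1] at hw ⊢
      rw [hp _ (hlt 0 (by omega) w hw), hp _ (hlt 1 (by omega) w hw), one_mul]
    · rw [hbeg, hbeg, e1, e2, pow_succ]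
      apply le_of_eq
      field_simp
    · rw [hbeg, hbeg, e1, e2, pow_succ]
      apply le_of_eq
      field_simp

/-- For all integers `κ ≠ 0`, all `A₁`, `A₂`, `C`, `W`, and for all large `k`: for all integers `X ≥ b ^ k` with
`b ^ k (log X) ^ (C + 8) ≤ X ≤ b ^ k (log X) ^ W` the number `D = c_k + κ x_k` has the property `Holds A₁ A₂ C X D`. -/
def Always (b : ℕ) (c : ℕ → ℤ) (x : ℕ → ℕ) : Prop :=
  ∀ (κ : ℤ) (A₁ A₂ C W : ℕ), κ ≠ 0 → ∀ᶠ k : ℕ in atTop, ∀ X : ℕ, b ^ k ≤ X → (b : ℝ) ^ k * Real.log X ^ (C + 8) ≤ X →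
    (X : ℝ) ≤ (b : ℝ) ^ k * Real.log X ^ W → Holds A₁ A₂ C X (c k + κ * x k)

/-- from a power of two to all `X` below it -/
lemma holds_mono {A₁ A₂ C X X' : ℕ} {D : ℤ} (h : Holds A₁ A₂ (C + 1) X' D) (h1 : X ≤ X') (h2 : X' ≤ 2 * X)
    (h3 : 2 ≤ Real.log X) : Holds A₁ A₂ C X D := by
  have hX0 : X ≠ 0 := by
    rintro rfl
    simp at h3
    linarith
  have hXr : (0 : ℝ) < X := by exact_mod_cast Nat.pos_of_ne_zero hX0
  have hle : Real.log X ≤ Real.log X' := Real.log_le_log hXr (by exact_mod_cast h1)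
  have hl0 : 0 < Real.log X := by linarith
  intro hD d q a q1 q2 q3 q4 q5 q6 q7 q8 x q9 q10
  have hA : Real.log X ^ A₁ ≤ Real.log X' ^ A₁ := pow_le_pow_left₀ hl0.le hle _
  have hB : Real.log X ^ A₂ ≤ Real.log X' ^ A₂ := pow_le_pow_left₀ hl0.le hle _
  refine (h hD d q a q1 (by linarith) q3 q4 q5 (by linarith) q7 q8 x q9
    (q10.trans (by exact_mod_cast h1))).trans ?_
  have h4 : Real.log X ^ (C + 1) ≤ Real.log X' ^ (C + 1) := pow_le_pow_left₀ hl0.le hle _
  have h5 : (X' : ℝ) ≤ 2 * X := by exact_mod_cast h2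
  have h6 : 0 < Real.log X ^ C := by positivity
  calc (X' : ℝ) / Real.log X' ^ (C + 1) ≤ (2 * X) / Real.log X ^ (C + 1) :=
        div_le_div₀ (by positivity) h5 (by positivity) h4
    _ ≤ X / Real.log X ^ C := by
        rw [div_le_div_iff₀ (by positivity) h6, pow_succ]
        have : 0 < (X : ℝ) * Real.log X ^ C := by positivity
        nlinarith

/-- the power of two above `X` is in the range, and its exponent is less than `k ^ 2` -/
lemma dyadic (b : ℕ) (hb : 2 ≤ b) (C W : ℕ) : ∃ k₀ : ℕ, ∀ k : ℕ, k₀ ≤ k → ∀ X : ℕ, b ^ k ≤ X →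
    (b : ℝ) ^ k * Real.log X ^ (C + 8) ≤ X → (X : ℝ) ≤ (b : ℝ) ^ k * Real.log X ^ W →
    ∃ j < k ^ 2, X ≤ 2 ^ j ∧ 2 ^ j ≤ 2 * X ∧ 2 ≤ Real.log X ∧ b ^ k ≤ 2 ^ j ∧
      (b : ℝ) ^ k * Real.log ((2 ^ j : ℕ) : ℝ) ^ (C + 1 + 6) ≤ ((2 ^ j : ℕ) : ℝ) ∧
      ((2 ^ j : ℕ) : ℝ) ≤ (b : ℝ) ^ k * Real.log ((2 ^ j : ℕ) : ℝ) ^ (W + 1) := by
  have hlog : ∀ᶠ n : ℕ in atTop, Real.log (n : ℝ) ^ W ≤ (n : ℝ) ^ (1 / 2 : ℝ) := by
    have h1 := (isLittleO_log_rpow_atTop (r := 1 / (2 * ((W : ℝ) + 1))) (by positivity)).bound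
      (show (0 : ℝ) < 1 by norm_num)
    have h2 := tendsto_natCast_atTop_atTop (R := ℝ) |>.eventually h1
    filter_upwards [h2, eventually_ge_atTop 3] with n hn hn3
    have hn1 : (1 : ℝ) ≤ n := by exact_mod_cast (by omega : 1 ≤ n)
    have hl : 0 ≤ Real.log n := Real.log_nonneg hn1
    rw [Real.norm_of_nonneg hl, Real.norm_of_nonneg (by positivity), one_mul] at hn
    calc Real.log n ^ W ≤ ((n : ℝ) ^ (1 / (2 * ((W : ℝ) + 1)))) ^ W := pow_le_pow_left₀ hl hn _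
      _ = (n : ℝ) ^ (1 / (2 * ((W : ℝ) + 1)) * W) := by
          rw [Real.rpow_mul (by positivity), Real.rpow_natCast]
      _ ≤ (n : ℝ) ^ (1 / 2 : ℝ) := by
          apply Real.rpow_le_rpow_of_exponent_le hn1
          rw [one_div_mul_eq_div, div_le_div_iff₀ (by positivity) (by norm_num)]
          linarith
  have hbig : ∀ᶠ n : ℕ in atTop, (2 : ℝ) ^ (C + 7) + 2 ≤ Real.log (n : ℝ) :=
    (Real.tendsto_log_atTop.comp tendsto_natCast_atTop_atTop).eventually_ge_atTop _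
  obtain ⟨n₀, hn₀⟩ := eventually_atTop.1 (hlog.and hbig)
  obtain ⟨L, hL⟩ : ∃ L : ℕ, b ≤ 2 ^ L := ⟨b, Nat.lt_two_pow_self.le⟩
  refine ⟨n₀ + 2 * L + 2, fun k hk X h1 h2 h3 => ?_⟩
  have hkb : k < b ^ k := Nat.lt_pow_self (by omega)
  obtain ⟨q1, q2⟩ := hn₀ X (by omega)
  have hX2 : 2 ≤ X := by omega
  have hXr : (0 : ℝ) < X := by exact_mod_cast (by omega : 0 < X)
  have hb0 : (0 : ℝ) < (b : ℝ) ^ k := by
    have : (0 : ℝ) < b := by exact_mod_cast (by omega : 0 < b)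
    positivity
  have hp : (0 : ℝ) < (2 : ℝ) ^ (C + 7) := by positivity
  have hl2 : 2 ≤ Real.log X := by linarith
  obtain ⟨j, hj⟩ : ∃ j, j = Nat.clog 2 X := ⟨_, rfl⟩
  have hj1 : X ≤ 2 ^ j := by rw [hj]; exact Nat.le_pow_clog (by norm_num) X
  have hj2 : 2 ^ j ≤ 2 * X := by
    have hjp : 0 < j := by rw [hj]; exact Nat.clog_pos (by norm_num) hX2
    have h5 : 2 ^ (j - 1) < X := by
      rw [hj, ← Nat.pred_eq_sub_one]
      exact Nat.pow_pred_clog_lt_self (by norm_num) (by omega)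
    obtain ⟨i, hi⟩ : ∃ i, j = i + 1 := ⟨j - 1, by omega⟩
    rw [hi] at h5 ⊢
    rw [Nat.add_sub_cancel] at h5
    rw [pow_succ]
    omega
  -- `X ≤ b ^ (2 k)`
  have hsq : (X : ℝ) ^ (1 / 2 : ℝ) ≤ (b : ℝ) ^ k := by
    have h4 : (X : ℝ) ≤ (b : ℝ) ^ k * (X : ℝ) ^ (1 / 2 : ℝ) := h3.trans (mul_le_mul_of_nonneg_left q1 hb0.le)
    have h5 : (X : ℝ) = (X : ℝ) ^ (1 / 2 : ℝ) * (X : ℝ) ^ (1 / 2 : ℝ) := by
      rw [← Real.rpow_add hXr]
      norm_num
    have h6 : 0 < (X : ℝ) ^ (1 / 2 : ℝ) := by positivity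
    exact le_of_mul_le_mul_right (h5.symm.le.trans h4) h6
  have hXb : (X : ℝ) ≤ ((b : ℝ) ^ k) ^ 2 := by
    have h5 : (X : ℝ) = (X : ℝ) ^ (1 / 2 : ℝ) * (X : ℝ) ^ (1 / 2 : ℝ) := by
      rw [← Real.rpow_add hXr]
      norm_num
    rw [h5, sq]
    exact mul_le_mul hsq hsq (by positivity) hb0.le
  have hX4 : X ≤ 2 ^ (2 * L * k) := by
    have h5 : X ≤ (b ^ k) ^ 2 := by exact_mod_cast hXb
    calc X ≤ (b ^ k) ^ 2 := h5
      _ ≤ ((2 ^ L) ^ k) ^ 2 := Nat.pow_le_pow_left (Nat.pow_le_pow_left hL k) 2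
      _ = 2 ^ (2 * L * k) := by rw [← pow_mul, ← pow_mul]; congr 1; ring
  have hjk : j ≤ 2 * L * k := by
    rw [hj]
    exact (Nat.clog_le_iff_le_pow (by norm_num)).2 hX4
  have hlt : j < k ^ 2 := by
    have h6 : 2 * L * k < k * k := Nat.mul_lt_mul_of_pos_right (by omega) (by omega)
    rw [sq]
    omega
  have hle : Real.log X ≤ Real.log ((2 ^ j : ℕ) : ℝ) := Real.log_le_log hXr (by exact_mod_cast hj1)
  have hup : Real.log ((2 ^ j : ℕ) : ℝ) ≤ 2 * Real.log X := by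
    have h5 : Real.log ((2 ^ j : ℕ) : ℝ) ≤ Real.log (2 * X) := by
      apply Real.log_le_log
      · exact_mod_cast Nat.pow_pos (by norm_num)
      · exact_mod_cast hj2
    rw [Real.log_mul (by norm_num) hXr.ne'] at h5
    linarith [Real.log_two_lt_d9]
  have hlp : 0 ≤ Real.log ((2 ^ j : ℕ) : ℝ) := by linarith
  refine ⟨j, hlt, hj1, hj2, hl2, h1.trans hj1, ?_, ?_⟩
  · calc (b : ℝ) ^ k * Real.log ((2 ^ j : ℕ) : ℝ) ^ (C + 1 + 6) ≤ (b : ℝ) ^ k * (2 * Real.log X) ^ (C + 7) :=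
          mul_le_mul_of_nonneg_left (pow_le_pow_left₀ hlp hup _) hb0.le
      _ = (b : ℝ) ^ k * (Real.log X ^ (C + 7) * 2 ^ (C + 7)) := by rw [mul_pow]; ring
      _ ≤ (b : ℝ) ^ k * (Real.log X ^ (C + 7) * Real.log X) := by
          apply mul_le_mul_of_nonneg_left _ hb0.le
          apply mul_le_mul_of_nonneg_left (by linarith) (by positivity)
      _ = (b : ℝ) ^ k * Real.log X ^ (C + 8) := by rw [← pow_succ]
      _ ≤ X := h2
      _ ≤ _ := by exact_mod_cast hj1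
  · calc ((2 ^ j : ℕ) : ℝ) ≤ 2 * X := by exact_mod_cast hj2
      _ ≤ 2 * ((b : ℝ) ^ k * Real.log X ^ W) := by linarith
      _ = (b : ℝ) ^ k * (Real.log X ^ W * 2) := by ring
      _ ≤ (b : ℝ) ^ k * (Real.log ((2 ^ j : ℕ) : ℝ) ^ W * Real.log ((2 ^ j : ℕ) : ℝ)) := by
          apply mul_le_mul_of_nonneg_left _ hb0.le
          apply mul_le_mul (pow_le_pow_left₀ (by linarith) hle _) (by linarith) (by norm_num) (by positivity)
      _ = _ := by rw [← pow_succ]

/-- **(1)** Let `x_k = x_k(ω) < b ^ k` be random integers on a probability space whose laws have exchangeable blocks of digits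
for all large `k`, and let `c_k` be integers with `|c_k| ≤ B b ^ k`. Then almost surely `Always b c x`: for all large `k` the
estimate of the problem holds for all the even differences between `D = c_k + κ x_k` (if this is positive) and
`D + (log X) ^ A₁`, for all `X` in the range, all `x ≤ X` and all classes of all moduli `q ≤ (log X) ^ A₂`.

**(2)** For almost every real number `ξ` in `[0, 1)` this holds in all bases `b ≥ 2` at once, with `x_k = [b ^ k ξ]`, for given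
integers `c_k = c_b(k)` with `|c_b(k)| ≤ B_b b ^ k` (for instance `c_k = 0`). -/
theorem result :
    (∀ (b L : ℕ), 2 ≤ b → 1 ≤ L → ∀ η : ℝ, 0 < η → η ≤ 1 → ∀ (T₀ B : ℕ) (c : ℕ → ℤ), (∀ k, |c k| ≤ B * (b : ℤ) ^ k) →
      ∀ (Ω : Type) [MeasurableSpace Ω] (ν : Measure Ω) [IsProbabilityMeasure ν] (x : ℕ → Ω → ℕ), (∀ k ω, x k ω < b ^ k) →
      (∀ᶠ k : ℕ in atTop, Exchangeable b L η T₀ k fun v => (ν {ω | x k ω = v}).toReal) →
        ∀ᵐ ω ∂ν, Always b c fun k => x k ω) ∧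
    (∀ (B : ℕ → ℕ) (c : ℕ → ℕ → ℤ), (∀ b k, |c b k| ≤ B b * (b : ℤ) ^ k) →
      ∀ᵐ ξ : ℝ, 0 ≤ ξ → ξ < 1 → ∀ b : ℕ, 2 ≤ b → Always b (c b) fun k => ⌊(b : ℝ) ^ k * ξ⌋₊) := by
  classical
  have main : ∀ (b L : ℕ), 2 ≤ b → 1 ≤ L → ∀ η : ℝ, 0 < η → η ≤ 1 → ∀ (T₀ B : ℕ) (c : ℕ → ℤ),
      (∀ k, |c k| ≤ B * (b : ℤ) ^ k) →
      ∀ (Ω : Type) [MeasurableSpace Ω] (ν : Measure Ω) [IsProbabilityMeasure ν] (x : ℕ → Ω → ℕ), (∀ k ω, x k ω < b ^ k) →
      (∀ᶠ k : ℕ in atTop, Exchangeable b L η T₀ k fun v => (ν {ω | x k ω = v}).toReal) →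
        ∀ᵐ ω ∂ν, Always b c fun k => x k ω := by
    intro b L hb hL η hη0 hη1 T₀ B c hc Ω _ ν _ x hx hlaw
    have key : ∀ (κ : ℤ) (A₁ A₂ C W : ℕ), κ ≠ 0 → ∀ᵐ ω ∂ν, ∀ᶠ k : ℕ in atTop, ∀ j < k ^ 2, b ^ k ≤ 2 ^ j →
        (b : ℝ) ^ k * Real.log ((2 ^ j : ℕ) : ℝ) ^ (C + 1 + 6) ≤ ((2 ^ j : ℕ) : ℝ) →
        ((2 ^ j : ℕ) : ℝ) ≤ (b : ℝ) ^ k * Real.log ((2 ^ j : ℕ) : ℝ) ^ (W + 1) →
          Holds A₁ A₂ (C + 1) (2 ^ j) (c k + κ * x k ω) := by
      intro κ A₁ A₂ C W hκ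
      obtain ⟨k₀, h0⟩ := Pool.Agent.N625.DY.cls_pairs (Pool.Agent.N625.PT.flex_clsV b L hb hL η hη0 hη1 T₀ κ hκ)
        B 4 A₁ A₂ (C + 1) (W + 1)
      obtain ⟨k₁, h1⟩ := eventually_atTop.1 hlaw
      exact Pool.Agent.N84.MD.bc_nat ν (fun k => b ^ k) x hx
        (fun k v => ∀ j < k ^ 2, b ^ k ≤ 2 ^ j →
          (b : ℝ) ^ k * Real.log ((2 ^ j : ℕ) : ℝ) ^ (C + 1 + 6) ≤ ((2 ^ j : ℕ) : ℝ) →
          ((2 ^ j : ℕ) : ℝ) ≤ (b : ℝ) ^ k * Real.log ((2 ^ j : ℕ) : ℝ) ^ (W + 1) →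
            Holds A₁ A₂ (C + 1) (2 ^ j) (c k + κ * v))
        ⟨max (max k₀ k₁) 1, fun k hk => by
          obtain ⟨p, hp⟩ : ∃ p : ℕ → ℝ, p = fun v => (ν {ω | x k ω = v}).toReal := ⟨_, rfl⟩
          have hkk : k₀ ≤ k := (le_max_left _ _).trans ((le_max_left _ _).trans hk)
          have hk1 : 1 ≤ k := (le_max_right _ _).trans hk
          have hfl := flex_of (h1 k ((le_max_right _ _).trans ((le_max_left _ _).trans hk)))
          rw [← hp] at hfl
          have hkr : (0 : ℝ) < k := by exact_mod_cast hk1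
          have hp0 : ∀ v, 0 ≤ p v := hfl.nonneg
          have hj : ∀ j, ∑ v ∈ range (b ^ k), (if (b ^ k ≤ 2 ^ j →
              (b : ℝ) ^ k * Real.log ((2 ^ j : ℕ) : ℝ) ^ (C + 1 + 6) ≤ ((2 ^ j : ℕ) : ℝ) →
              ((2 ^ j : ℕ) : ℝ) ≤ (b : ℝ) ^ k * Real.log ((2 ^ j : ℕ) : ℝ) ^ (W + 1) →
                Holds A₁ A₂ (C + 1) (2 ^ j) (c k + κ * (v : ℕ))) then 0 else p v) ≤ 1 / (k : ℝ) ^ 4 := by
            intro j
            by_cases hr : b ^ k ≤ 2 ^ j ∧ (b : ℝ) ^ k * Real.log ((2 ^ j : ℕ) : ℝ) ^ (C + 1 + 6) ≤ ((2 ^ j : ℕ) : ℝ) ∧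
                ((2 ^ j : ℕ) : ℝ) ≤ (b : ℝ) ^ k * Real.log ((2 ^ j : ℕ) : ℝ) ^ (W + 1)
            · have h2 := h0 k hkk (2 ^ j) hr.1 hr.2.1 hr.2.2 p hfl (c k) (hc k) (Holds A₁ A₂ (C + 1) (2 ^ j))
                (fun y hy => by
                  by_contra h
                  rw [not_and_not_right] at h
                  exact hy (holds_of _ _ _ _ _ h))
              refine le_trans (sum_le_sum fun v _ => ?_) h2
              by_cases h3 : Holds A₁ A₂ (C + 1) (2 ^ j) (c k + κ * (v : ℕ))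
              · rw [if_pos fun _ _ _ => h3, if_pos h3]
              · rw [if_neg h3]
                split_ifs
                · exact hp0 v
                · exact le_rfl
            · rw [sum_eq_zero fun v _ => if_pos fun a1 a2 a3 => absurd ⟨a1, a2, a3⟩ hr]
              positivity
          have hsum : ∑ v ∈ range (b ^ k), (if (∀ j < k ^ 2, b ^ k ≤ 2 ^ j →
              (b : ℝ) ^ k * Real.log ((2 ^ j : ℕ) : ℝ) ^ (C + 1 + 6) ≤ ((2 ^ j : ℕ) : ℝ) →
              ((2 ^ j : ℕ) : ℝ) ≤ (b : ℝ) ^ k * Real.log ((2 ^ j : ℕ) : ℝ) ^ (W + 1) →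
                Holds A₁ A₂ (C + 1) (2 ^ j) (c k + κ * (v : ℕ))) then 0 else p v) ≤
              ∑ j ∈ range (k ^ 2), ∑ v ∈ range (b ^ k), (if (b ^ k ≤ 2 ^ j →
              (b : ℝ) ^ k * Real.log ((2 ^ j : ℕ) : ℝ) ^ (C + 1 + 6) ≤ ((2 ^ j : ℕ) : ℝ) →
              ((2 ^ j : ℕ) : ℝ) ≤ (b : ℝ) ^ k * Real.log ((2 ^ j : ℕ) : ℝ) ^ (W + 1) →
                Holds A₁ A₂ (C + 1) (2 ^ j) (c k + κ * (v : ℕ))) then 0 else p v) := by
            rw [sum_comm]
            refine sum_le_sum fun v _ => ?_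
            split_ifs with h3
            · exact sum_nonneg fun j _ => by split_ifs; exacts [le_rfl, hp0 v]
            · push Not at h3
              obtain ⟨j, q1, q2, q3, q4, q5⟩ := h3
              refine le_trans (le_of_eq ?_) (single_le_sum (fun j _ => ?_) (mem_range.2 q1))
              · rw [if_neg fun h => q5 (h q2 q3 q4)]
              · split_ifs; exacts [le_rfl, hp0 v]
          have htot : ∑ j ∈ range (k ^ 2), (1 / (k : ℝ) ^ 4) = 1 / (k : ℝ) ^ 2 := by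
            rw [sum_const, card_range, nsmul_eq_mul]
            push_cast
            field_simp
          have h3 := hsum.trans ((sum_le_sum fun j _ => hj j).trans (le_of_eq htot))
          rw [hp] at h3
          refine le_trans (le_of_eq ?_) h3
          refine sum_congr rfl fun v _ => ?_
          split_ifs <;> rfl⟩
    have hall : ∀ᵐ ω ∂ν, ∀ (κ : ℤ) (A₁ A₂ C W : ℕ), κ ≠ 0 → ∀ᶠ k : ℕ in atTop, ∀ j < k ^ 2, b ^ k ≤ 2 ^ j →
        (b : ℝ) ^ k * Real.log ((2 ^ j : ℕ) : ℝ) ^ (C + 1 + 6) ≤ ((2 ^ j : ℕ) : ℝ) →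
        ((2 ^ j : ℕ) : ℝ) ≤ (b : ℝ) ^ k * Real.log ((2 ^ j : ℕ) : ℝ) ^ (W + 1) →
          Holds A₁ A₂ (C + 1) (2 ^ j) (c k + κ * x k ω) := by
      refine ae_all_iff.2 fun κ => ae_all_iff.2 fun A₁ => ae_all_iff.2 fun A₂ => ae_all_iff.2 fun C =>
        ae_all_iff.2 fun W => ?_
      by_cases hκ : κ = 0
      · exact Filter.Eventually.of_forall fun ω h => absurd hκ h
      · filter_upwards [key κ A₁ A₂ C W hκ] with ω hω _
        exact hω
    filter_upwards [hall] with ω hω κ A₁ A₂ C W hκ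
    obtain ⟨k₂, hk₂⟩ := dyadic b hb C W
    filter_upwards [hω κ A₁ A₂ C W hκ, eventually_ge_atTop k₂] with k hk hk2 X q1 q2 q3
    obtain ⟨j, r1, r2, r3, r4, r5, r6, r7⟩ := hk₂ k hk2 X q1 q2 q3
    exact holds_mono (hk j r1 r5 r6 r7) r2 r3 r4
  refine ⟨main, fun B c hc => ?_⟩
  have each : ∀ b : ℕ, ∀ᵐ ξ : ℝ, 0 ≤ ξ → ξ < 1 → 2 ≤ b → Always b (c b) fun k => ⌊(b : ℝ) ^ k * ξ⌋₊ := by
    intro b
    by_cases hb : 2 ≤ b
    swap
    · exact Filter.Eventually.of_forall fun ξ _ _ h => absurd h hb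
    have hb0 : (0 : ℝ) < b := by exact_mod_cast (by omega : 0 < b)
    have : IsProbabilityMeasure (volume.restrict (Set.Ico (0 : ℝ) 1)) :=
      ⟨by rw [Measure.restrict_apply_univ, Real.volume_Ico]; norm_num⟩
    have hpos : ∀ k : ℕ, 0 < b ^ k := fun k => Nat.pow_pos (by omega)
    have h1 := main b 1 hb le_rfl (1 / b) (by positivity) (by
      rw [div_le_one hb0]
      exact_mod_cast (by omega : 1 ≤ b)) 0 (B b) (c b) (hc b) ℝ (volume.restrict (Set.Ico (0 : ℝ) 1))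
      (fun k ξ => ⌊((b ^ k : ℕ) : ℝ) * ξ⌋₊ % b ^ k) (fun k ξ => Nat.mod_lt _ (hpos k))
      (Filter.Eventually.of_forall fun k => exch_unif b hb k _ (fun v hv => by
        show ((volume.restrict (Set.Ico (0 : ℝ) 1)) {ξ : ℝ | ⌊((b ^ k : ℕ) : ℝ) * ξ⌋₊ % b ^ k = v}).toReal = _
        rw [Pool.Agent.N84.MD.unif (b ^ k) (hpos k) v hv, ENNReal.toReal_ofReal (by positivity)]
        push_cast
        rfl) (fun v => ENNReal.toReal_nonneg))
    rw [ae_restrict_iff' measurableSet_Ico] at h1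
    filter_upwards [h1] with ξ hξ h2 h3 _
    have h4 := hξ ⟨h2, h3⟩
    have h5 : (fun k : ℕ => ⌊((b ^ k : ℕ) : ℝ) * ξ⌋₊ % b ^ k) = fun k : ℕ => ⌊(b : ℝ) ^ k * ξ⌋₊ := by
      funext k
      have hbk : (0 : ℝ) < (b : ℝ) ^ k := by positivity
      push_cast
      refine Nat.mod_eq_of_lt ?_
      rw [Nat.floor_lt (by positivity)]
      push_cast
      nlinarith
    rw [h5] at h4
    exact h4
  filter_upwards [ae_all_iff.2 each] with ξ hξ h2 h3 b hb
  exact hξ b h2 h3 hb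

end Pool.Agent.Results.MP_92ef0c_nt.AlmostEveryRealNumber
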