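import Pool.Agent.N625.PT.H
import Pool.Agent.N625.DY.L
import Pool.Agent.L7h6.GB.FlexWalk

/-!
# Prime pairs in progressions, uniformly in the modulus, for differences whose digits label walks in a graph

Let the digits in base `b` label the edges of a (finite or infinite) symmetric graph, such that the edges with different
labels which start at a vertex are different and at least two edges start at every vertex; for instance the Cayley graph of
any finitely generated group (the digits are the generators). Consider the integers `v` whose `k` digits are the labels of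
a walk from the vertex `x` to the vertex `y`, for instance of a closed walk, that is, a word in the generators which is trivial
in the group. If there are enough such walks, then for almost all these `v` the estimate of the problem holds for all the even
differences `d` near `D = c + κ v`, for all `x ≤ X` and all classes of all moduli `q ≤ (log X) ^ A₂`, where
`D (log X) ^ (C + 6) ≤ X ≤ D (log X) ^ W` (so the differences are smaller than `X` by a power of the logarithm only, but every
sum over differences is replaced by one over a sparse family, of `b ^ (k (1 - δ))` elements below `b ^ k`, which cannot be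
described by a finite automaton or by independent digits).

Method. The uniform distribution on the walks from `x` to `y` has exchangeable blocks of digits in the sense of the library
`Pool.Agent.N625.PT` (starting files): at a vertex `z` two different closed walks of the length two can be exchanged, and the
potential `∑_m (2 ρ²)^(-m) w(n + 2 m, z)`, `w(n, z)` the number of the walks of the length `n` from `z` to `y`, is harmonic,
decreases by a bounded factor along these blocks, and is at most `k ^ (D + 1)` at the start, by the spectral bound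
`w(n, z) ≤ ρ ^ n` (`Pool.Agent.L7h6.GB`, by this team). The passage from exchangeable blocks to prime pairs is from the starting
files (`Pool.Agent.N625.PT.flex_clsV`, `Pool.Agent.N625.DY.cls_pairs`, `Pool.Agent.TH872.Mir`, `Pool.Agent.W93.PP`).

Definition used (in `Pool.Agent.H560R3.GB`): `C₂`: the twin prime constant `∏_{p > 2} (1 - 1 / (p - 1) ^ 2)` (the infimum
of the partial products).
-/

set_option autoImplicit false

namespace Pool.Agent.Results.MP_92ef0c_nt.DigitWalks

open Finset Pool.Agent.H560R3.GB

/-- The digits `a < b` act on the set `X` of the vertices: an edge with the label `a` leads from `x` to `y` if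
`δ x a = some y` (at most one edge with the label `a` starts at `x`). The number of the edges from `x` to `y` equals the
number of the edges from `y` to `x`, and at least two edges start at every vertex. The graph may be infinite. -/
structure Graph {X : Type} (b : ℕ) (δ : X → ℕ → Option X) : Prop where
  symm : ∀ x y : X, {a : ℕ | a < b ∧ δ x a = some y}.ncard = {a : ℕ | a < b ∧ δ y a = some x}.ncard
  two : ∀ x : X, ∃ a a' : ℕ, a < a' ∧ a' < b ∧ (δ x a).isSome ∧ (δ x a').isSome

open Classical in
/-- The integers `v < b ^ k` whose `k` digits in base `b`, from the most significant to the least significant one (the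
digit number `i`, `0 ≤ i < k`, from the left is `v / b ^ (k - 1 - i) % b`), are the labels of a walk from `x` to `y`. -/
noncomputable def walks {X : Type} (b : ℕ) (δ : X → ℕ → Option X) (k : ℕ) (x y : X) : Finset ℕ :=
  (range (b ^ k)).filter fun v =>
    ((List.range k).map fun i => v / b ^ (k - 1 - i) % b).foldl (fun s a => s.bind fun z => δ z a) (some x) = some y

/-- `π_d(x; a, q)`: the number of primes `p ≤ x` with `p + d ≤ x` prime and `p ≡ a (mod q)`. (For even
`d > 0` such a prime `p` is automatically odd.) -/
noncomputable def pairs (d : ℕ) (x : ℝ) (a q : ℕ) : ℕ :=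
  ((range (⌊x⌋₊ + 1)).filter (fun p => p.Prime ∧ (p + d).Prime ∧ (p : ℝ) + d ≤ x ∧ p ≡ a [MOD q])).card

/-- The main term `M_d(x; q)` of the problem. -/
noncomputable def main (d : ℕ) (x : ℝ) (q : ℕ) : ℝ :=
  2 / (((range q).filter (fun α => Nat.Coprime α q ∧ Nat.Coprime (α + d) q)).card : ℝ) *
    (∏ p ∈ d.primeFactors.filter (fun p => 2 < p), ((p : ℝ) - 1) / ((p : ℝ) - 2)) * C₂ *
    ∫ t in (2 : ℝ)..x, 1 / Real.log t ^ 2

/-- If `D > 0`: the estimate of the problem with the bound `X / (log X) ^ C`, for all `x ≤ X`, all moduli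
`q ≤ (log X) ^ A₂`, all admissible classes `a`, and all even `d` with `D ≤ d ≤ D + (log X) ^ A₁`. -/
def Holds (A₁ A₂ C X : ℕ) (D : ℤ) : Prop :=
  0 < D → ∀ d q a : ℕ, D ≤ d → (d : ℝ) ≤ D + Real.log X ^ A₁ → 0 < d → Even d → 1 ≤ q → (q : ℝ) ≤ Real.log X ^ A₂ →
    Nat.Coprime a q → Nat.Coprime (a + d) q → ∀ x : ℝ, 2 ≤ x → x ≤ X →
    |(pairs d x a q : ℝ) - main d x q| ≤ X / Real.log X ^ C

lemma holds_of (A B C X : ℕ) (D : ℤ) (hgood : 0 < D → Pool.Agent.W93.PP.GoodD A B C X D.toNat) :
    Holds A B C X D := by
  intro hD
  have hgood := hgood hD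
  obtain ⟨D, rfl⟩ := Int.eq_ofNat_of_zero_le hD.le
  rw [Int.toNat_natCast] at hgood
  intro d q a hd1 hd2 hd0 hdev hq1 hq2 ha had x hx2 hxX
  obtain ⟨δ, hδ⟩ := Nat.exists_eq_add_of_le (Int.ofNat_le.1 hd1)
  subst hδ
  have hδL : (δ : ℝ) ≤ Real.log X ^ A := by
    push_cast at hd2 ⊢
    linarith
  have h2 := hgood δ q a hδL hq1 hq2 ha had hdev.two_dvd hd0.ne' x hx2 hxX
  have e1 : main (D + δ) x q =
      sing (D + δ) / Pool.Agent.W93.PP.Cnt q (D + δ) * Pool.Agent.W93.PP.Li2 x := by
    unfold main sing Pool.Agent.W93.PP.Cnt Pool.Agent.W93.PP.Li2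
    ring
  rw [e1]
  exact h2

open Classical in
/-- Let `δ` be a graph whose edges are labelled with the digits in base `b`, let `z` be a vertex, and let `ρ > 0` be such
that there are at most `ρ ^ (2 n)` closed walks of the length `2 n` at `z`, for all `n`. Let `T`, `κ ≠ 0`, `B`, `A₁`, `A₂`, `C`,
`U` and `W` be fixed and let `k` be large. Let `X` be a number with `b ^ k (log X) ^ (C + 6) ≤ X ≤ b ^ k (log X) ^ W`, let `y` be a
vertex such that the number of the walks of the length `k` from `z` to `y` is at least `ρ ^ k / k ^ T`, and let `c` be an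
arbitrary integer with `|c| ≤ B b ^ k`. Then all the integers `v` whose `k` digits are the labels of a walk from `z` to
`y`, with the exception of a proportion of at most `1 / k ^ U` of them, have the following property: if `D = c + κ v` is
positive, then for all even `d` with `D ≤ d ≤ D + (log X) ^ A₁`, all `x ≤ X`, all `q ≤ (log X) ^ A₂` and all `a` with
`(a, q) = (a + d, q) = 1`, `|π_d(x; a, q) - M_d(x; q)| ≤ X / (log X) ^ C`.

(For a group of polynomial growth, a free group, or any group with the property of rapid decay, there are at least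
`ρ ^ k / k ^ T` closed walks of every even length `k` in the Cayley graph, where `ρ` is its spectral radius.) -/
theorem result (b : ℕ) (V : Type) (δ : V → ℕ → Option V) (hG : Graph b δ) (z : V) (ρ : ℝ) (hρ : 0 < ρ)
    (hR : ∀ n : ℕ, ((walks b δ (2 * n) z z).card : ℝ) ≤ ρ ^ (2 * n)) (T : ℕ) (κ : ℤ) (hκ : κ ≠ 0) (B A₁ A₂ C U W : ℕ) :
    ∃ k₀ : ℕ, ∀ k : ℕ, k₀ ≤ k →
      ∀ X : ℕ, b ^ k ≤ X → (b : ℝ) ^ k * Real.log X ^ (C + 6) ≤ X → (X : ℝ) ≤ (b : ℝ) ^ k * Real.log X ^ W →
      ∀ y : V, ρ ^ k / (k : ℝ) ^ T ≤ (walks b δ k z y).card → ∀ c : ℤ, |c| ≤ B * (b : ℤ) ^ k →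
      (((walks b δ k z y).filter fun v => ¬ Holds A₁ A₂ C X (c + κ * (v : ℕ))).card : ℝ) ≤
        (walks b δ k z y).card / (k : ℝ) ^ U := by
  have hG' : Pool.Agent.N625.GW.Graph b δ := ⟨hG.symm, hG.two⟩
  have hb := Pool.Agent.N625.GW.two_le hG' z
  have hρ2 := Pool.Agent.N625.GW.rho_two hG' hR
  obtain ⟨k₀, h0⟩ := Pool.Agent.N625.DY.cls_pairs (Pool.Agent.N625.PT.flex_clsV b 2 hb (by norm_num) (1 / (2 * ρ ^ 2))
    (by positivity) (by rw [div_le_one (by positivity)]; linarith) (T + 1) κ hκ) B U A₁ A₂ C W
  refine ⟨k₀ + 2, fun k hk X hX0 hX1 hX2 y hy c hc => ?_⟩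
  have hk1 : (0 : ℝ) < (k : ℝ) ^ T := by
    have : (0 : ℝ) < k := by exact_mod_cast (by omega : 0 < k)
    positivity
  have hy' : ρ ^ k ≤ (k : ℝ) ^ T * (walks b δ k z y).card := by
    rw [div_le_iff₀ hk1, mul_comm] at hy
    exact hy
  have h1 := h0 k (by omega) X hX0 hX1 hX2 _ (Pool.Agent.L7h6.GB.walk_flex hG' z ρ hρ hR T k (by omega) y hy') c hc
    (Holds A₁ A₂ C X) (fun y hy => by
      by_contra h
      rw [not_and_not_right] at h
      exact hy (holds_of _ _ _ _ _ h))
  have h2 := Pool.Agent.L7h6.GB.pr_count k z y (Pool.Agent.N625.GW.card_pos' hρ hy') _ _ h1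
  rw [mul_one_div] at h2
  exact h2

end Pool.Agent.Results.MP_92ef0c_nt.DigitWalks
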