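import Pool.Agent.N625.PT.H
import Pool.Agent.N625.DY.L
import Pool.Agent.L7h6.GB.FlexWalk

/-!
# Prime pairs in progressions, uniformly in the modulus, for differences given by a context-free language

Some digits in base `b` are opening brackets, some are closing brackets, some are neutral; an opening digit matches certain
closing digits. Consider the integers whose `k` digits form a correctly nested word (for one pair of brackets and no neutral
digits these are the Dyck words; the number of the correctly nested words is about `β ^ k / k ^ (3 / 2)` with some `β < b`, so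
the set is sparse). For almost all these integers `v` the estimate of the problem holds for all the even differences `d` near
`D = c + κ v`, for all `x ≤ X` and all classes of all moduli `q ≤ (log X) ^ A₂`, where
`D (log X) ^ (C + 6) ≤ X ≤ D (log X) ^ W`.

Method. The uniform distribution on the correctly nested words has exchangeable blocks of digits in the sense of the library
`Pool.Agent.N625.PT` (starting files): the blocks `o c o c` and `o o c c` lead from a stack of open brackets to the same stack,
and the potential is the harmonic function of the stack (the product of the numbers of the closing digits which match the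
open brackets, divided by a power of the square root of the number of the matching pairs) times a power of `β`; it is at most
a power of `k` at the start, by the bound for the ballot numbers (`Pool.Agent.L7h6.GB`, by this team). The passage from
exchangeable blocks to prime pairs is from the starting files (`Pool.Agent.N625.PT.flex_clsV`, `Pool.Agent.N625.DY.cls_pairs`,
`Pool.Agent.TH872.Mir`, `Pool.Agent.W93.PP`).

Definition used (in `Pool.Agent.H560R3.GB`): `C₂`: the twin prime constant `∏_{p > 2} (1 - 1 / (p - 1) ^ 2)` (the infimum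
of the partial products).
-/

set_option autoImplicit false

namespace Pool.Agent.Results.MP_92ef0c_nt.NestedWords

open Finset Pool.Agent.H560R3.GB

/-- `P` is a set of pairs of an opening digit and a closing digit which match each other, `E` is a set of neutral
digits; the digits are smaller than `b`, no digit plays two of the three roles, and there is at least one pair.
(An opening digit can match several closing digits, and conversely.) -/
structure Alphabet (b : ℕ) (P : Finset (ℕ × ℕ)) (E : Finset ℕ) : Prop where
  lt : ∀ p ∈ P, p.1 < b ∧ p.2 < b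
  ne : ∀ p ∈ P, ∀ p' ∈ P, p.1 ≠ p'.2
  neutral : ∀ a ∈ E, a < b ∧ ∀ p ∈ P, a ≠ p.1 ∧ a ≠ p.2
  nonempty : P.Nonempty

/-- The correctly nested words: the empty word; a neutral digit followed by a correctly nested word; and `o u c w`,
where `u` and `w` are correctly nested words and the opening digit `o` matches the closing digit `c`. -/
inductive Balanced (P : Finset (ℕ × ℕ)) (E : Finset ℕ) : List ℕ → Prop
  | nil : Balanced P E []
  | neutral (a : ℕ) (w : List ℕ) : a ∈ E → Balanced P E w → Balanced P E (a :: w)
  | pair (o c : ℕ) (u w : List ℕ) : (o, c) ∈ P → Balanced P E u → Balanced P E w → Balanced P E (o :: (u ++ c :: w))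

open Classical in
/-- The integers `v < b ^ k` whose `k` digits in base `b`, from the most significant to the least significant one (the
digit number `i`, `0 ≤ i < k`, from the left is `v / b ^ (k - 1 - i) % b`), form a correctly nested word. -/
noncomputable def brackets (b : ℕ) (P : Finset (ℕ × ℕ)) (E : Finset ℕ) (k : ℕ) : Finset ℕ :=
  (range (b ^ k)).filter fun v => Balanced P E ((List.range k).map fun i => v / b ^ (k - 1 - i) % b)

lemma bal_iff (P : Finset (ℕ × ℕ)) (E : Finset ℕ) (w : List ℕ) : Balanced P E w ↔ Pool.Agent.N625.DY.Balanced P E w := by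
  constructor
  · intro h
    induction h with
    | nil => exact .nil
    | neutral a w h1 _ ih => exact .neutral a w h1 ih
    | pair o c u w h1 _ _ ih1 ih2 => exact .pair o c u w h1 ih1 ih2
  · intro h
    induction h with
    | nil => exact .nil
    | neutral a w h1 _ ih => exact .neutral a w h1 ih
    | pair o c u w h1 _ _ ih1 ih2 => exact .pair o c u w h1 ih1 ih2

lemma brackets_eq (b : ℕ) (P : Finset (ℕ × ℕ)) (E : Finset ℕ) (k : ℕ) :
    brackets b P E k = Pool.Agent.N625.DY.brackets b P E k := by
  classical
  unfold brackets Pool.Agent.N625.DY.brackets Pool.Agent.N625.DY.word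
  ext v
  rw [mem_filter, mem_filter, bal_iff]

/-- `π_d(x; a, q)`: the number of primes `p ≤ x` with `p + d ≤ x` prime and `p ≡ a (mod q)`. (For even
`d > 0` such a prime `p` is automatically odd.) -/
noncomputable def pairs (d : ℕ) (x : ℝ) (a q : ℕ) : ℕ :=
  ((range (⌊x⌋₊ + 1)).filter (fun p => p.Prime ∧ (p + d).Prime ∧ (p : ℝ) + d ≤ x ∧ p ≡ a [MOD q])).card

/-- The main term `M_d(x; q)` of the problem. -/
noncomputable def main (d : ℕ) (x : ℝ) (q : ℕ) : ℝ :=
  2 / (((range q).filter (fun α => Nat.Coprime α q ∧ Nat.Coprime (α + d) q)).card : ℝ) *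
    (∏ p ∈ d.primeFactors.filter (fun p => 2 < p), ((p : ℝ) - 1) / ((p : ℝ) - 2)) * C₂ *
    ∫ t in (2 : ℝ)..x, 1 / Real.log t ^ 2

/-- If `D > 0`: the estimate of the problem with the bound `X / (log X) ^ C`, for all `x ≤ X`, all moduli
`q ≤ (log X) ^ A₂`, all admissible classes `a`, and all even `d` with `D ≤ d ≤ D + (log X) ^ A₁`. -/
def Holds (A₁ A₂ C X : ℕ) (D : ℤ) : Prop :=
  0 < D → ∀ d q a : ℕ, D ≤ d → (d : ℝ) ≤ D + Real.log X ^ A₁ → 0 < d → Even d → 1 ≤ q → (q : ℝ) ≤ Real.log X ^ A₂ →
    Nat.Coprime a q → Nat.Coprime (a + d) q → ∀ x : ℝ, 2 ≤ x → x ≤ X →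
    |(pairs d x a q : ℝ) - main d x q| ≤ X / Real.log X ^ C

lemma holds_of (A B C X : ℕ) (D : ℤ) (hgood : 0 < D → Pool.Agent.W93.PP.GoodD A B C X D.toNat) :
    Holds A B C X D := by
  intro hD
  have hgood := hgood hD
  obtain ⟨D, rfl⟩ := Int.eq_ofNat_of_zero_le hD.le
  rw [Int.toNat_natCast] at hgood
  intro d q a hd1 hd2 hd0 hdev hq1 hq2 ha had x hx2 hxX
  obtain ⟨δ, hδ⟩ := Nat.exists_eq_add_of_le (Int.ofNat_le.1 hd1)
  subst hδ
  have hδL : (δ : ℝ) ≤ Real.log X ^ A := by
    push_cast at hd2 ⊢
    linarith
  have h2 := hgood δ q a hδL hq1 hq2 ha had hdev.two_dvd hd0.ne' x hx2 hxX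
  have e1 : main (D + δ) x q =
      sing (D + δ) / Pool.Agent.W93.PP.Cnt q (D + δ) * Pool.Agent.W93.PP.Li2 x := by
    unfold main sing Pool.Agent.W93.PP.Cnt Pool.Agent.W93.PP.Li2
    ring
  rw [e1]
  exact h2

open Classical in
/-- Let the matching pairs `P` of digits and the neutral digits `E` in base `b`, and `κ ≠ 0`, `B`, `A₁`, `A₂`, `C`, `U` and `W`
be fixed and let `k` be large. Let `X` be a number with `b ^ k (log X) ^ (C + 6) ≤ X ≤ b ^ k (log X) ^ W`, and let `c` be an
arbitrary integer with `|c| ≤ B b ^ k`. Then all the integers `v` whose `k` digits form a correctly nested word, with the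
exception of a proportion of at most `1 / k ^ U` of them, have the following property: if `D = c + κ v` is positive, then for
all even `d` with `D ≤ d ≤ D + (log X) ^ A₁`, all `x ≤ X`, all `q ≤ (log X) ^ A₂` and all `a` with `(a, q) = (a + d, q) = 1`,
`|π_d(x; a, q) - M_d(x; q)| ≤ X / (log X) ^ C`. -/
theorem result (b : ℕ) (P : Finset (ℕ × ℕ)) (E : Finset ℕ) (hA : Alphabet b P E) (κ : ℤ) (hκ : κ ≠ 0)
    (B A₁ A₂ C U W : ℕ) :
    ∃ k₀ : ℕ, ∀ k : ℕ, k₀ ≤ k →
      ∀ X : ℕ, b ^ k ≤ X → (b : ℝ) ^ k * Real.log X ^ (C + 6) ≤ X → (X : ℝ) ≤ (b : ℝ) ^ k * Real.log X ^ W →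
      ∀ c : ℤ, |c| ≤ B * (b : ℤ) ^ k →
      (((brackets b P E k).filter fun v => ¬ Holds A₁ A₂ C X (c + κ * (v : ℕ))).card : ℝ) ≤
        (brackets b P E k).card / (k : ℝ) ^ U := by
  have hA' : Pool.Agent.N625.DY.Alphabet b P E := ⟨hA.lt, hA.ne, hA.neutral, hA.nonempty⟩
  have hb := Pool.Agent.N625.DY.two_le hA'
  have hbe := Pool.Agent.N625.DY.beta_ge hA'
  obtain ⟨T, k₁, hflex⟩ := Pool.Agent.L7h6.GB.nested_flex hA'
  obtain ⟨k₀, h0⟩ := Pool.Agent.N625.DY.cls_pairs (Pool.Agent.N625.PT.flex_clsV b 4 hb (by norm_num)
    (1 / Pool.Agent.N625.DY.beta P E ^ 4) (by positivity)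
    (by rw [div_le_one (by positivity)]; exact one_le_pow₀ (by linarith)) T κ hκ) B U A₁ A₂ C W
  refine ⟨k₀ + k₁, fun k hk X hX0 hX1 hX2 c hc => ?_⟩
  simp only [brackets_eq]
  by_cases hke : Even k ∨ E.Nonempty
  · have h1 := h0 k (by omega) X hX0 hX1 hX2 _ (hflex k (by omega) hke) c hc (Holds A₁ A₂ C X) (fun y hy => by
      by_contra h
      rw [not_and_not_right] at h
      exact hy (holds_of _ _ _ _ _ h))
    rw [Pool.Agent.L7h6.GB.brackets_eq hA']
    have hpos : 0 < (Pool.Agent.N625.GW.walks b (Pool.Agent.N625.DY.step P E) k [] []).card := by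
      rw [← Pool.Agent.L7h6.GB.brackets_eq hA']
      exact Pool.Agent.N625.DY.card_pos_of hA' k hke
    have h2 := Pool.Agent.L7h6.GB.pr_count k _ _ hpos _ _ h1
    rw [mul_one_div] at h2
    exact h2
  · rw [Pool.Agent.N625.DY.br_empty k hke]
    simp

end Pool.Agent.Results.MP_92ef0c_nt.NestedWords
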