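import Mathlib
import Pool.Agent.L7h28.UM.Final3

/-!
MP_92ef0c_nt (prime pairs with fixed even difference in arithmetic progressions), partial result: a lower
bound for the number of the prime pairs in a class modulo `q`, for moduli `q` up to a fixed power of the
number up to which the pairs are counted, for a positive proportion of the pairs (class, difference) which
come from any given set of integers coprime to `q`.
-/

set_option autoImplicit false

open Finset Filter

namespace Pool.Agent.Results.MP_92ef0c_nt.PairsForLargeModuli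

/-- `π_d(y; a, q)`: the number of the primes `p ≤ y` with `p + d ≤ y` prime and `p ≡ a (mod q)`, `p` odd. -/
def pairs (d y a q : ℕ) : ℕ :=
  ((range (y + 1)).filter (fun p => p.Prime ∧ p ≠ 2 ∧ (p + d).Prime ∧ p + d ≤ y ∧ p ≡ a [MOD q])).card

open Classical in
/-- The pairs `h < h'` in `H` for which there are many prime pairs with difference `h' - h` in the class of
`h` modulo `q`: for some `y` between `X` and `X ^ A` their number up to `y` is at least
`δ * y / (q * (log y) ^ K)`. -/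
noncomputable def Good (A K : ℕ) (δ : ℝ) (X q : ℕ) (H : Finset ℕ) : Finset (ℕ × ℕ) :=
  (H ×ˢ H).filter (fun w => w.1 < w.2 ∧ ∃ y : ℕ, X ≤ y ∧ y ≤ X ^ A ∧
    δ * (y / (q * (Real.log y) ^ K)) ≤ (pairs (w.2 - w.1) y w.1 q : ℝ))

theorem good_of (A0 K : ℕ) (δ0 δ : ℝ) (hδ0 : 0 < δ0) (hδ : δ ≤ δ0 / 2) (hδp : 0 < δ) (X q h h' : ℕ) (hX : 30 ≤ X)
    (hq1 : 1 ≤ q) (hqX : q ≤ X) (hhX : h' ≤ X) (hlt : h < h') (G : Finset (ℕ × ℕ)) (hG1 : (q, h) ∈ G) (hG2 : (q, h') ∈ G)
    (hM : Pool.Agent.L7h28.UM.Many A0 K δ0 X G) :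
    ∃ y : ℕ, X ≤ y ∧ y ≤ X ^ (A0 + 2) ∧ δ * (y / (q * (Real.log y) ^ K)) ≤ (pairs (h' - h) y h q : ℝ) := by
  classical
  obtain ⟨N, hXN, hNA, hcount⟩ := hM
  have hN30 : 30 ≤ N := hX.trans hXN
  have hNr : (30 : ℝ) ≤ N := by exact_mod_cast hN30
  have hlog : 0 < Real.log N := Real.log_pos (by linarith)
  refine ⟨q * N + X, by omega, ?_, ?_⟩
  · calc q * N + X ≤ X * X ^ A0 + X * X ^ A0 := by
          apply Nat.add_le_add
          · exact Nat.mul_le_mul hqX hNA
          · exact Nat.le_mul_of_pos_right _ (Nat.pow_pos (by omega))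
      _ = 2 * (X * X ^ A0) := by ring
      _ ≤ X * (X * X ^ A0) := Nat.mul_le_mul_right _ (by omega)
      _ = X ^ (A0 + 2) := by ring
  · have hq0 : (1 : ℝ) ≤ q := by exact_mod_cast hq1
    obtain ⟨y, hy⟩ : ∃ y : ℕ, y = q * N + X := ⟨_, rfl⟩
    rw [← hy]
    have hNy : N ≤ y := by
      rw [hy]
      exact (Nat.le_mul_of_pos_left _ hq1).trans (Nat.le_add_right _ _)
    have hNyr : (N : ℝ) ≤ y := by exact_mod_cast hNy
    have hylog : Real.log N ≤ Real.log y := Real.log_le_log (by linarith) hNyr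
    have h1 : (y : ℝ) / (q * (Real.log y) ^ K) ≤ 2 * (N / (Real.log N) ^ K) := by
      have h2 : (y : ℝ) ≤ 2 * (q * N) := by
        rw [hy]
        push_cast
        have h3 : (X : ℝ) ≤ N := by exact_mod_cast hXN
        have h4 : (N : ℝ) ≤ q * N := le_mul_of_one_le_left (by linarith) hq0
        linarith
      calc (y : ℝ) / (q * (Real.log y) ^ K) ≤ (2 * (q * N)) / (q * (Real.log N) ^ K) := by
            apply div_le_div₀ (by positivity) h2 (by positivity)
            apply mul_le_mul_of_nonneg_left _ (by linarith)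
            exact pow_le_pow_left₀ hlog.le hylog _
        _ = _ := by
            have : (q : ℝ) ≠ 0 := by linarith
            field_simp
    have h5 : δ * ((y : ℝ) / (q * (Real.log y) ^ K)) ≤ δ0 * (N / (Real.log N) ^ K) := by
      calc _ ≤ (δ0 / 2) * (2 * (N / (Real.log N) ^ K)) := mul_le_mul hδ h1 (by positivity) (by positivity)
        _ = _ := by ring
    refine h5.trans (hcount.trans ?_)
    refine Nat.cast_le.2 ?_
    unfold pairs
    apply card_le_card_of_injOn (fun n => q * n + h)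
    · intro n hn
      rw [mem_coe, mem_filter, mem_Icc] at hn
      have h6 := hn.2.2 _ hG1
      have h7 := hn.2.2 _ hG2
      simp only at h6 h7
      have h8 : q * n ≤ q * N := Nat.mul_le_mul_left _ hn.1.2
      have h9 : n ≤ q * n := Nat.le_mul_of_pos_left _ hq1
      have h10 : 5 ≤ n := by omega
      rw [mem_coe, mem_filter, mem_range]
      beta_reduce
      refine ⟨by omega, h6, by omega, ?_, by omega, ?_⟩
      · have h11 : q * n + h + (h' - h) = q * n + h' := by omega
        rw [h11]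
        exact h7
      · have h12 : q * n ≡ 0 [MOD q] := (Nat.modEq_zero_iff_dvd).2 (dvd_mul_right _ _)
        have h13 := h12.add_right h
        rwa [zero_add] at h13
    · intro n _ m _ hnm
      simp only at hnm
      have : q * n = q * m := by omega
      exact Nat.eq_of_mul_eq_mul_left (by omega) this

/-- There are an exponent `A`, a real `δ > 0`, integers `K`, `M` and integers `e X`, larger than every fixed
power of `log X`, such that for all large `X`, all moduli `q ≤ X` which are not divisible by `e X`, and all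
sets `H` of at least `M` integers `h ≤ X` coprime to `q`: for at least `δ |H| ^ 2` of the pairs `h < h'` of
elements of `H` there is `y` between `X` and `X ^ A` such that at least `δ * y / (q * (log y) ^ K)` primes
`p ≤ y` satisfy `p ≡ h (mod q)` and `p + (h' - h)` is a prime `≤ y`. -/
theorem result : ∃ (A K M : ℕ) (δ : ℝ) (e : ℕ → ℕ), 0 < δ ∧
    (∀ B : ℕ, ∀ᶠ X : ℕ in atTop, (Real.log X) ^ B ≤ (e X : ℝ)) ∧
    ∀ᶠ X : ℕ in atTop, ∀ q : ℕ, 1 ≤ q → q ≤ X → ¬ e X ∣ q →
      ∀ H : Finset ℕ, (∀ h ∈ H, h ≤ X ∧ h.Coprime q) → M ≤ H.card →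
      δ * (H.card : ℝ) ^ 2 ≤ ((Good A K δ X q H).card : ℝ) := by
  classical
  obtain ⟨A0, e, _, he, hA, _⟩ := Pool.Agent.L7h28.UM.uniform
  obtain ⟨K, M, δ0, hδ0, hM, hev⟩ := Pool.Agent.L7h28.UM.proportion hA 2
  have hCM : 1 ≤ M.choose 2 := Nat.choose_pos hM
  have hCMr : (1 : ℝ) ≤ M.choose 2 := by exact_mod_cast hCM
  obtain ⟨δ, hδ⟩ : ∃ δ : ℝ, δ = min (δ0 / 2) (1 / (4 * (M.choose 2 : ℝ))) := ⟨_, rfl⟩
  have hδp : 0 < δ := by rw [hδ]; positivity
  have hδ1 : δ ≤ δ0 / 2 := hδ ▸ min_le_left _ _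
  have hδ2 : δ ≤ 1 / (4 * (M.choose 2 : ℝ)) := hδ ▸ min_le_right _ _
  refine ⟨A0 + 2, K, M, δ, e, hδp, he, ?_⟩
  filter_upwards [hev, eventually_ge_atTop 30] with X hX hX30
  intro q hq1 hqX hqe H hH hHM
  obtain ⟨G, hG⟩ : ∃ G : Finset (ℕ × ℕ), G = H.image (fun h => (q, h)) := ⟨_, rfl⟩
  have hGc : G.card = H.card := by
    rw [hG]
    apply card_image_of_injective
    intro h h' hh
    exact (Prod.ext_iff.1 hh).2
  have hmain := hX G (by
    intro v hv
    rw [hG, mem_image] at hv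
    obtain ⟨h, hh, rfl⟩ := hv
    exact ⟨hq1, hqX, (hH h hh).1, (hH h hh).2.symm, hqe⟩) (by rw [hGc]; exact hHM)
  rw [hGc] at hmain
  have hsub : ((G.powersetCard 2).filter (fun S => Pool.Agent.L7h28.UM.Many A0 K δ0 X S)).card ≤
      (Good (A0 + 2) K δ X q H).card := by
    refine le_trans (card_le_card (t := (Good (A0 + 2) K δ X q H).image (fun w => {(q, w.1), (q, w.2)})) ?_)
      card_image_le
    intro S hS
    rw [mem_filter, mem_powersetCard] at hS
    obtain ⟨⟨hSG, hSc⟩, hSM⟩ := hS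
    obtain ⟨u, v, huv, rfl⟩ := card_eq_two.1 hSc
    have hu : u ∈ G := hSG (mem_insert_self _ _)
    have hv : v ∈ G := hSG (mem_insert_of_mem (mem_singleton_self _))
    rw [hG, mem_image] at hu hv
    obtain ⟨h, hh, rfl⟩ := hu
    obtain ⟨h', hh', rfl⟩ := hv
    have hne : h ≠ h' := fun hc => huv (by rw [hc])
    rw [mem_image]
    rcases lt_or_gt_of_ne hne with hlt | hlt
    · refine ⟨(h, h'), ?_, rfl⟩
      unfold Good
      rw [mem_filter, mem_product]
      exact ⟨⟨hh, hh'⟩, hlt, good_of A0 K δ0 δ hδ0 hδ1 hδp X q h h' hX30 hq1 hqX (hH h' hh').1 hlt _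
        (mem_insert_self _ _) (mem_insert_of_mem (mem_singleton_self _)) hSM⟩
    · refine ⟨(h', h), ?_, ?_⟩
      · unfold Good
        rw [mem_filter, mem_product]
        exact ⟨⟨hh', hh⟩, hlt, good_of A0 K δ0 δ hδ0 hδ1 hδp X q h' h hX30 hq1 hqX (hH h hh).1 hlt _
          (mem_insert_of_mem (mem_singleton_self _)) (mem_insert_self _ _) hSM⟩
      · exact pair_comm _ _
  have h1 : H.card.choose 2 ≤ M.choose 2 * (Good (A0 + 2) K δ X q H).card :=
    hmain.trans (Nat.mul_le_mul_left _ hsub)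
  have h2 : (H.card : ℝ) ^ 2 ≤ 4 * (H.card.choose 2 : ℝ) := by
    rw [Nat.cast_choose_two]
    have h3 : (2 : ℝ) ≤ H.card := by exact_mod_cast hM.trans hHM
    nlinarith
  have h3 : ((H.card.choose 2 : ℕ) : ℝ) ≤ (M.choose 2 : ℝ) * ((Good (A0 + 2) K δ X q H).card : ℝ) := by
    exact_mod_cast h1
  calc δ * (H.card : ℝ) ^ 2 ≤ (1 / (4 * (M.choose 2 : ℝ))) * (4 * ((M.choose 2 : ℝ) *
        ((Good (A0 + 2) K δ X q H).card : ℝ))) := by
        apply mul_le_mul hδ2 (h2.trans (mul_le_mul_of_nonneg_left h3 (by norm_num))) (by positivity) (by positivity)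
    _ = _ := by field_simp

end Pool.Agent.Results.MP_92ef0c_nt.PairsForLargeModuli
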